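import Mathlib
import Pool.Agent.H568.Tr
import Pool.Agent.H544.ES.E6

/-!
Quadratic polynomials: the sieve products and the constant of Hardy and Littlewood for almost all pairs `(b, c)`.
-/

set_option autoImplicit false

namespace Pool.Agent.H544.EQ

open Finset Filter Topology
open Pool.Agent.N792 (fv rho Vc V1 Admissible partialC eps gcdProd)
open Pool.Agent.N791.U (Unif X8U t_X8U pair_transfer sh adm_shift eps_shift gcd_shift partialC_shift)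
open Pool.Agent.H544.ES (ev_pow)
open Pool.Agent.H373R2.T7 (ev_L')

/-- the comparison of the truncated products with the constant -/
def QV (a : ℤ) (x : ℕ) (b c : ℤ) : Prop :=
  Admissible a b c → ∃ S : ℝ, ∃ w z : ℕ, 0 < S ∧ Tendsto (fun y => partialC a b c y) atTop (𝓝 S) ∧
    Real.log x ^ 18 ≤ w ∧ (w : ℝ) ≤ Real.log x ^ 19 ∧ w ≤ z ∧ (x : ℝ) ^ (1 / 6 : ℝ) ≤ z ∧ (z : ℝ) ≤ (x : ℝ) ^ (1 / 5 : ℝ) ∧
    |Vc a b c z * V1 w - Vc a b c w * V1 z| ≤ Vc a b c w * V1 z / 2 ∧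
    |eps a b * S * gcdProd a b - Vc a b c w / V1 w| ≤ Vc a b c w / V1 w / 2

lemma V1_pos (z : ℕ) : 0 < V1 z := by
  unfold V1
  apply prod_pos
  intro p hp
  have hpp := (mem_filter.1 hp).2
  have h2 : (1 : ℝ) < p := by exact_mod_cast hpp.one_lt
  have h0 : (0 : ℝ) < p := by linarith
  rw [sub_pos, div_lt_one h0]
  exact h2

lemma Vc_nn (a b c : ℤ) (z : ℕ) : 0 ≤ Vc a b c z := by
  unfold Vc
  apply prod_nonneg
  intro p hp
  have hpp := (mem_filter.1 hp).2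
  have h0 : (0 : ℝ) < p := by exact_mod_cast hpp.pos
  have h1 : (rho a b c p : ℝ) ≤ p := by
    unfold rho
    exact_mod_cast (card_filter_le _ _).trans (card_range p).le
  rw [sub_nonneg, div_le_one h0]
  exact h1

theorem unif_QV (a : ℤ) (ha : 0 < a) (Λ : ℝ) (hΛ : 1 ≤ Λ) (γ : ℝ) (hγ : 1 / 2 ≤ γ) (η : ℝ) (hη : 0 < η) :
    Unif Λ γ η (QV a) := by
  obtain ⟨x0, h0⟩ := t_X8U a ha Λ hΛ 3 19
  obtain ⟨x1, h1⟩ := ev_L' (max 2 (1 / η))
  obtain ⟨x2, h2⟩ := ev_pow 19 (1 / 6) 1 (by norm_num) one_pos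
  obtain ⟨x3, h3⟩ := ev_pow 0 (1 / 30) (1 / 2) (by norm_num) (by norm_num)
  refine ⟨max (max x0 x1) (max x2 (max x3 1)), fun x hx b C hbC hC1 hC2 => ?_⟩
  have g0 : x0 ≤ x := le_trans (le_trans (le_max_left _ _) (le_max_left _ _)) hx
  have g1 : x1 ≤ x := le_trans (le_trans (le_max_right _ _) (le_max_left _ _)) hx
  have g2 : x2 ≤ x := le_trans (le_trans (le_max_left _ _) (le_max_right _ _)) hx
  have g3 : x3 ≤ x := le_trans (le_trans (le_trans (le_max_left _ _) (le_max_right _ _)) (le_max_right _ _)) hx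
  have g4 : 1 ≤ x := le_trans (le_trans (le_trans (le_max_right _ _) (le_max_right _ _)) (le_max_right _ _)) hx
  have hx1 : (1 : ℝ) ≤ x := by exact_mod_cast g4
  have hx0 : (0 : ℝ) < x := by linarith
  have q1 := h1 x g1
  have q2 := h2 x g2
  have q3 := h3 x g3
  obtain ⟨L, hL⟩ : ∃ L : ℝ, L = Real.log x := ⟨_, rfl⟩
  rw [← hL] at q1 q2 q3
  rw [pow_zero] at q3
  rw [one_mul] at q2
  have hL2 : 2 ≤ L := (le_max_left _ _).trans q1
  have hLη : 1 / η ≤ L := (le_max_right _ _).trans q1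
  have hL18 : 1 ≤ L ^ 18 := one_le_pow₀ (by linarith)
  obtain ⟨w, hw⟩ : ∃ w : ℕ, w = ⌈L ^ 18⌉₊ := ⟨_, rfl⟩
  have hw1 : L ^ 18 ≤ w := by rw [hw]; exact Nat.le_ceil _
  have hw2 : (w : ℝ) ≤ L ^ 19 := by
    have := Nat.ceil_lt_add_one (show 0 ≤ L ^ 18 by positivity)
    rw [hw, pow_succ L 18]
    nlinarith
  obtain ⟨z, hz⟩ : ∃ z : ℕ, z = ⌊(x : ℝ) ^ (1 / 5 : ℝ)⌋₊ := ⟨_, rfl⟩
  have hz1 : (z : ℝ) ≤ (x : ℝ) ^ (1 / 5 : ℝ) := by rw [hz]; exact Nat.floor_le (by positivity)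
  have hz2 : (x : ℝ) ^ (1 / 6 : ℝ) ≤ z := by
    have h5 := Nat.lt_floor_add_one ((x : ℝ) ^ (1 / 5 : ℝ))
    rw [← hz] at h5
    have h6 : (x : ℝ) ^ (1 / 6 : ℝ) * (x : ℝ) ^ (1 / 30 : ℝ) = (x : ℝ) ^ (1 / 5 : ℝ) := by
      rw [← Real.rpow_add hx0]
      norm_num
    have h7 : 1 ≤ (x : ℝ) ^ (1 / 6 : ℝ) := Real.one_le_rpow hx1 (by norm_num)
    have h8 : 2 ≤ (x : ℝ) ^ (1 / 30 : ℝ) := by linarith
    nlinarith
  have hwz : w ≤ z := by
    have : (w : ℝ) ≤ z := hw2.trans (q2.trans hz2)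
    exact_mod_cast this
  have hC0 : (0 : ℝ) ≤ C := Nat.cast_nonneg _
  obtain ⟨Ex, e1, e2, e3⟩ := h0 x g0 b (hbC.trans (mul_le_mul_of_nonneg_left (by exact_mod_cast hC2) (by linarith))) C
    ((Real.rpow_le_rpow_of_exponent_le hx1 hγ).trans hC1) hC2 w z (by rw [← hL]; exact hw1) (by rw [← hL]; exact hw2) hwz hz1
  rw [← hL] at e2 e3
  have hL3 : 2 ≤ L ^ 3 := by nlinarith [sq_nonneg L]
  have hL3' : L ≤ L ^ 3 := le_self_pow₀ (by linarith) (by norm_num)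
  refine ⟨Ex, e1, e2.trans ?_, fun c hc hcE hadm => ?_⟩
  · rw [div_le_iff₀ (by positivity)]
    have h9 : 1 ≤ η * L ^ 3 := by
      have h10 : 1 / η ≤ L ^ 3 := hLη.trans hL3'
      rw [div_le_iff₀ hη] at h10
      linarith
    calc (C : ℝ) = C * 1 := (mul_one _).symm
      _ ≤ C * (η * L ^ 3) := mul_le_mul_of_nonneg_left h9 hC0
      _ = η * C * L ^ 3 := by ring
  · obtain ⟨f1, f2⟩ := e3 c hc hcE
    obtain ⟨S, s1, s2, s3⟩ := f2 hadm
    refine ⟨S, w, z, s1, s2, by rw [← hL]; exact hw1, by rw [← hL]; exact hw2, hwz, hz2, hz1, f1.trans ?_, s3.trans ?_⟩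
    · apply div_le_div_of_nonneg_left _ (by norm_num) hL3
      exact mul_nonneg (Vc_nn _ _ _ _) (V1_pos _).le
    · apply div_le_div_of_nonneg_left _ (by norm_num) hL3
      exact div_nonneg (Vc_nn _ _ _ _) (V1_pos _).le

/-- the roots of the shifted polynomial -/
lemma rho_shift_le (a b c s : ℤ) (m : ℕ) (hm : 0 < m) : rho a (b + 2 * a * s) (c + b * s + a * s ^ 2) m ≤ rho a b c m := by
  unfold rho
  have hm0 : (m : ℤ) ≠ 0 := by exact_mod_cast hm.ne'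
  have hm1 : (0 : ℤ) < m := by exact_mod_cast hm
  apply card_le_card_of_injOn (fun r : ℕ => (((r : ℤ) + s) % m).toNat)
  · intro r hr
    rw [mem_coe, mem_filter, mem_range] at hr
    rw [mem_coe, mem_filter, mem_range]
    have h1 := Int.emod_nonneg ((r : ℤ) + s) hm0
    have h2 := Int.emod_lt_of_pos ((r : ℤ) + s) hm1
    have h3 : (((((r : ℤ) + s) % m).toNat : ℕ) : ℤ) = ((r : ℤ) + s) % m := Int.toNat_of_nonneg h1
    refine ⟨(Int.toNat_lt h1).2 h2, ?_⟩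
    have h4 : (m : ℤ) ∣ ((r : ℤ) + s) - ((r : ℤ) + s) % m := Int.dvd_self_sub_emod
    have h5 := hr.2
    unfold fv at h5 ⊢
    rw [h3]
    have h6 : a * ((r : ℤ)) ^ 2 + (b + 2 * a * s) * r + (c + b * s + a * s ^ 2) - (a * (((r : ℤ) + s) % m) ^ 2 + b * (((r : ℤ) + s) % m) + c) =
        (((r : ℤ) + s) - ((r : ℤ) + s) % m) * (a * (((r : ℤ) + s) + ((r : ℤ) + s) % m) + b) := by ring
    have h7 : (m : ℤ) ∣ a * ((r : ℤ)) ^ 2 + (b + 2 * a * s) * r + (c + b * s + a * s ^ 2) - (a * (((r : ℤ) + s) % m) ^ 2 + b * (((r : ℤ) + s) % m) + c) := by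
      rw [h6]
      exact dvd_mul_of_dvd_left h4 _
    have h8 := dvd_sub h5 h7
    rwa [sub_sub_cancel] at h8
  · intro r hr r' hr' h
    rw [mem_coe, mem_filter, mem_range] at hr hr'
    simp only at h
    have h1 := Int.emod_nonneg ((r : ℤ) + s) hm0
    have h1' := Int.emod_nonneg ((r' : ℤ) + s) hm0
    have h2 : ((r : ℤ) + s) % m = ((r' : ℤ) + s) % m := by
      rw [← Int.toNat_of_nonneg h1, ← Int.toNat_of_nonneg h1', h]
    have h3 : (m : ℤ) ∣ (r : ℤ) - r' := by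
      have h4 := Int.emod_eq_emod_iff_emod_sub_eq_zero.1 h2
      have h5 := Int.dvd_of_emod_eq_zero h4
      rwa [add_sub_add_right_eq_sub] at h5
    have h4 : |(r : ℤ) - r'| < m := by
      rw [abs_lt]
      omega
    have h5 := Int.eq_zero_of_abs_lt_dvd h3 h4
    omega

lemma rho_shift (a b c s : ℤ) (m : ℕ) (hm : 0 < m) : rho a (b + 2 * a * s) (c + b * s + a * s ^ 2) m = rho a b c m := by
  apply le_antisymm (rho_shift_le a b c s m hm)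
  have h := rho_shift_le a (b + 2 * a * s) (c + b * s + a * s ^ 2) (-s) m hm
  have e1 : b + 2 * a * s + 2 * a * -s = b := by ring
  have e2 : c + b * s + a * s ^ 2 + (b + 2 * a * s) * -s + a * (-s) ^ 2 = c := by ring
  rw [e1, e2] at h
  exact h

lemma Vc_shift (a b c s : ℤ) (z : ℕ) : Vc a (b + 2 * a * s) (c + b * s + a * s ^ 2) z = Vc a b c z := by
  unfold Vc
  apply prod_congr rfl
  intro p hp
  rw [rho_shift a b c s p (mem_filter.1 hp).2.pos]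

/-- **the comparison for almost all pairs** -/
theorem pair_QV (a : ℤ) (ha : 0 < a) (η : ℝ) (hη : 0 < η) : ∃ H0 : ℕ, ∀ H : ℕ, H0 ≤ H → ∀ N : ℕ, H ^ 2 ≤ N → (N : ℝ) ≤ (H : ℝ) ^ (3 : ℝ) →
    ∃ Ex ⊆ Icc (-(H : ℤ)) H ×ˢ Icc (-(H : ℤ)) H, (#Ex : ℝ) ≤ η * H ^ 2 ∧
      ∀ q ∈ Icc (-(H : ℤ)) H ×ˢ Icc (-(H : ℤ)) H, q ∉ Ex → QV a (2 * a.toNat * N) q.1 q.2 := by
  have haR : (1 : ℝ) ≤ a := by exact_mod_cast ha
  obtain ⟨δ, hδ⟩ : ∃ δ : ℝ, δ = min 1 (η / 18) := ⟨_, rfl⟩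
  have d1 : 0 < δ := by rw [hδ]; exact lt_min (by norm_num) (by positivity)
  have d2 : δ ≤ 1 := by rw [hδ]; exact min_le_left _ _
  have d3 : δ ≤ η / 18 := by rw [hδ]; exact min_le_right _ _
  obtain ⟨H0, h⟩ := pair_transfer a ha (2 / 3) η δ (by norm_num) hη d1 d2 (by linarith) _
    (unif_QV a ha (3 * a) (by linarith) (2 / 3) (by norm_num) (δ * η / (80 * a ^ 3)) (by positivity))
  refine ⟨H0 + 1, fun H hH N hN1 hN2 => ?_⟩
  have hH1 : (1 : ℝ) ≤ H := by exact_mod_cast (by omega : 1 ≤ H)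
  obtain ⟨Ex, k1, k2, k3⟩ := h H (by omega) N hN1 (by
    calc (N : ℝ) ^ (2 / 3 : ℝ) ≤ ((H : ℝ) ^ (3 : ℝ)) ^ (2 / 3 : ℝ) := Real.rpow_le_rpow (Nat.cast_nonneg _) hN2 (by norm_num)
      _ = (H : ℝ) ^ (2 : ℝ) := by rw [← Real.rpow_mul (by linarith)]; norm_num
      _ = (H : ℝ) ^ 2 := by rw [Real.rpow_two])
  refine ⟨Ex, k1, k2, fun q hq hqE hadm => ?_⟩
  obtain ⟨hs1, hQ⟩ := k3 q hq hqE
  obtain ⟨S, w, z, m1, m2, m3, m4, m5, m6, m7, m8, m9⟩ := hQ (adm_shift _ hadm)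
  simp only [partialC_shift] at m2
  rw [Vc_shift, Vc_shift] at m8
  rw [eps_shift, gcd_shift, Vc_shift] at m9
  exact ⟨S, w, z, m1, m2, m3, m4, m5, m6, m7, m8, m9⟩

end Pool.Agent.H544.EQ
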