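import Mathlib
import Pool.Agent.H544.EQ.G1

/-!
Quadratic polynomials: the system, the sums, the sieve products.
-/

set_option autoImplicit false

namespace Pool.Agent.H544.EQ

open Finset Filter Topology Polynomial
open Pool.Agent.N792 (fv rho Vc V1 Admissible partialC eps gcdProd)
open Pool.Agent.N792.RX8a (rho_lt)
open Pool.Agent.H544.ES (ev_pow nt_self irr_of_many toNat_prime end_alg SS SS_triv SS_mono V_exp)
open Pool.Agent.H373R2.T7 (ev_L' nuB PerB pz mem_pz Vz)
open Pool.Agent.W123.RP (Vq Vz_bounds)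
open Pool.Agent.W123.RU
open Pool.Agent.Y879.GL (US us_perB us_adm)
open Pool.Agent.H534.RT (NT)
open Pool.Agent.H534.RS (WW WW_pos solN)

/-- the polynomial -/
noncomputable def ff (a b c : ℤ) : Fin 1 → ℤ[X] := fun _ => C a * X ^ 2 + C b * X + C c

lemma ff_eval (a b c : ℤ) (i : Fin 1) (n : ℕ) : (ff a b c i).eval (n : ℤ) = fv a b c n := by
  unfold ff fv
  simp only [eval_add, eval_mul, eval_C, eval_X, eval_pow]

lemma ff_deg (a b c : ℤ) (ha : 0 < a) (i : Fin 1) : (ff a b c i).natDegree = 2 := by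
  unfold ff
  exact natDegree_quadratic ha.ne'

lemma ff_nu (a b c : ℤ) (p : ℕ) : nuB (Poly.Q (ff a b c)) p = rho a b c p := by
  classical
  unfold nuB rho
  congr 1
  ext n
  rw [mem_filter, mem_filter]
  apply and_congr_right
  intro _
  unfold Poly.Q
  constructor
  · rintro ⟨i, hi⟩
    rwa [ff_eval] at hi
  · intro h
    exact ⟨0, by rw [ff_eval]; exact h⟩

lemma pz_eq (z : ℕ) : pz z = (Icc 1 z).filter Nat.Prime := by
  ext p
  rw [mem_pz, mem_filter, mem_Icc]
  constructor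
  · rintro ⟨h1, h2⟩
    exact ⟨⟨h2.one_lt.le, h1⟩, h2⟩
  · rintro ⟨⟨_, h1⟩, h2⟩
    exact ⟨h1, h2⟩

lemma Vc_eq (a b c : ℤ) (z : ℕ) : Vq (Poly.Q (ff a b c)) z = Vc a b c z := by
  unfold Vq Vc
  rw [pz_eq]
  apply prod_congr rfl
  intro p _
  rw [ff_nu]

lemma V1_eq (z : ℕ) : Vz z = V1 z := by
  unfold Vz V1
  rw [pz_eq]

lemma ff_us (a b c : ℤ) (ha : 0 < a) (N : ℕ) (haN : a ≤ N) (hb : |b| ≤ N) (hc : |c| ≤ N) (hadm : Admissible a b c)
    (hmany : 4 < #((Ioc 0 N).filter (fun m : ℕ => (fv a b c m).toNat.Prime))) : US 1 2 ((N : ℝ) ^ 1) 0 (ff a b c) := by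
  refine ⟨fun i => ?_, fun i => ?_, fun i => ?_, fun i n => ?_, fun p hp => ?_, fun i j t ht ht0 => ?_⟩
  · apply irr_of_many _ (by rw [ff_deg a b c ha]; norm_num) ((Ioc 0 N).filter (fun m : ℕ => (fv a b c m).toNat.Prime))
    · rw [ff_deg a b c ha]
      omega
    · intro n hn
      rw [ff_eval]
      exact (toNat_prime _ (mem_filter.1 hn).2).1
  · rw [ff_deg a b c ha]
    norm_num
  · rw [ff_deg a b c ha]
  · rw [pow_one]
    have h0 : (0 : ℤ) ≤ N := Nat.cast_nonneg _
    have h1 : |(ff a b c i).coeff n| ≤ (N : ℤ) := by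
      unfold ff
      rcases n with _ | _ | _ | n
      · simp only [coeff_add, coeff_C_mul, coeff_X_pow, coeff_X, coeff_C]
        norm_num
        exact hc
      · simp only [coeff_add, coeff_C_mul, coeff_X_pow, coeff_X, coeff_C]
        norm_num
        exact hb
      · have : |a| ≤ (N : ℤ) := by rw [abs_of_pos ha]; exact haN
        simp only [coeff_add, coeff_C_mul, coeff_X_pow, coeff_X, coeff_C]
        norm_num
        exact this
      · have e : (C a * X ^ 2 + C b * X + C c : ℤ[X]).coeff (n + 1 + 1 + 1) = 0 := by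
          apply coeff_eq_zero_of_natDegree_lt
          rw [natDegree_quadratic ha.ne']
          omega
        rw [e, abs_zero]
        exact h0
    exact_mod_cast h1
  · have h1 := rho_lt a b c hadm p hp
    by_contra hcon
    push Not at hcon
    unfold rho at h1
    have h2 : (range p).filter (fun r : ℕ => (p : ℤ) ∣ fv a b c r) = range p := by
      apply filter_true_of_mem
      intro r _
      obtain ⟨i, hi⟩ := hcon r
      rwa [ff_eval] at hi
    rw [h2, card_range] at h1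
    omega
  · exfalso
    have : (1 : ℝ) ≤ t := by exact_mod_cast ht
    linarith

lemma ff_nt (a b c : ℤ) (ha : 0 < a) (W N : ℕ) : NT W N (ff a b c) := by
  intro i j t ht1 ht2 _
  have : i = j := Subsingleton.elim _ _
  subst this
  exact nt_self _ (by rw [ff_deg a b c ha]; norm_num) t ht1

lemma ff_ne (a b c : ℤ) (hadm : Admissible a b c) (n : ℕ) : fv a b c n ≠ 0 := by
  intro h
  apply hadm.2.2.2
  unfold fv at h
  refine ⟨2 * a * n + b, ?_⟩
  have : b ^ 2 - 4 * a * c = (2 * a * n + b) * (2 * a * n + b) - 4 * a * (a * (n : ℤ) ^ 2 + b * n + c) := by ring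
  rw [this, h]
  ring

/-- few arguments have a given value -/
lemma val_few (a b c : ℤ) (ha : 0 < a) (S : Finset ℕ) (v : ℤ) : #(S.filter (fun n => fv a b c n = v)) ≤ 2 := by
  classical
  have hne : ff a b c 0 - C v ≠ 0 := by
    intro h0
    have h2 := ff_deg a b c ha 0
    rw [sub_eq_zero.1 h0, natDegree_C] at h2
    omega
  calc #(S.filter (fun n => fv a b c n = v)) = #((S.filter (fun n => fv a b c n = v)).image (fun n : ℕ => (n : ℤ))) :=
        (card_image_of_injective _ Nat.cast_injective).symm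
    _ ≤ #((ff a b c 0 - C v).roots.toFinset) := by
        apply card_le_card
        intro y hy
        rw [mem_image] at hy
        obtain ⟨n, hn, rfl⟩ := hy
        rw [mem_filter] at hn
        rw [Multiset.mem_toFinset, mem_roots hne, IsRoot.def, eval_sub, eval_C, ff_eval, hn.2, sub_self]
    _ ≤ Multiset.card (ff a b c 0 - C v).roots := Multiset.toFinset_card_le _
    _ ≤ (ff a b c 0 - C v).natDegree := card_roots' _
    _ = 2 := by rw [natDegree_sub_C, ff_deg a b c ha]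

/-- few arguments have a small prime value -/
lemma small_few (a b c : ℤ) (ha : 0 < a) (N : ℕ) (S : Finset ℕ) (hS : ∀ n ∈ S, (fv a b c n).toNat.Prime) :
    (#(S.filter (fun n => ¬ Nat.sqrt N < (fv a b c n).toNat)) : ℝ) ≤ 2 * (N : ℝ) ^ (1 / 2 : ℝ) := by
  classical
  have h2 : #(S.filter (fun n => ¬ Nat.sqrt N < (fv a b c n).toNat)) ≤ ∑ v ∈ Icc 1 (Nat.sqrt N), #(S.filter (fun n => fv a b c n = ((v : ℕ) : ℤ))) := by
    refine (card_le_card (t := (Icc 1 (Nat.sqrt N)).biUnion (fun v => S.filter (fun n => fv a b c n = ((v : ℕ) : ℤ)))) ?_).trans card_biUnion_le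
    intro n hn
    rw [mem_filter, not_lt] at hn
    obtain ⟨hnS, hn2⟩ := hn
    have h3 := hS n hnS
    rw [mem_biUnion]
    exact ⟨(fv a b c n).toNat, mem_Icc.2 ⟨h3.one_lt.le, hn2⟩, mem_filter.2 ⟨hnS, (toNat_prime _ h3).2.symm⟩⟩
  have h3 : (Nat.sqrt N : ℝ) ≤ (N : ℝ) ^ (1 / 2 : ℝ) := by
    rw [← Real.sqrt_eq_rpow]
    exact Real.nat_sqrt_le_real_sqrt
  calc (#(S.filter (fun n => ¬ Nat.sqrt N < (fv a b c n).toNat)) : ℝ) ≤ ((∑ v ∈ Icc 1 (Nat.sqrt N), #(S.filter (fun n => fv a b c n = ((v : ℕ) : ℤ))) : ℕ) : ℝ) := by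
        exact_mod_cast h2
    _ ≤ ((∑ _v ∈ Icc 1 (Nat.sqrt N), 2 : ℕ) : ℝ) := by
        apply Nat.cast_le.2
        exact sum_le_sum fun v _ => val_few a b c ha S _
    _ = 2 * (Nat.sqrt N : ℝ) := by
        rw [sum_const, Nat.card_Icc, smul_eq_mul, Nat.add_sub_cancel]
        push_cast
        ring
    _ ≤ _ := by linarith

/-- the sum of the inverses of the logarithms -/
lemma li_low (a : ℤ) (ha : 0 < a) : ∃ N0 : ℕ, ∀ N : ℕ, N0 ≤ N → ∀ b c : ℤ, |b| ≤ N → |c| ≤ N →
    (9 / 20 : ℝ) * (N / Real.log N) ≤ ∑ m ∈ Ioc 0 N, 1 / Real.log ((a : ℝ) * m ^ 2 + b * m + c) := by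
  classical
  obtain ⟨n1, h1⟩ := ev_L' (max 1 (10 * Real.log (a + 2)))
  refine ⟨max (max n1 132) 2, fun N hN b c hb hc => ?_⟩
  have g1 : n1 ≤ N := le_trans (le_trans (le_max_left _ _) (le_max_left _ _)) hN
  have g2 : 132 ≤ N := le_trans (le_trans (le_max_right _ _) (le_max_left _ _)) hN
  have hL := h1 N g1
  obtain ⟨L, hLd⟩ : ∃ L : ℝ, L = Real.log N := ⟨_, rfl⟩
  rw [← hLd] at hL ⊢
  have hL1 : 1 ≤ L := (le_max_left _ _).trans hL
  have hL2 : 10 * Real.log (a + 2) ≤ L := (le_max_right _ _).trans hL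
  have hN0 : (0 : ℝ) < N := by exact_mod_cast (by omega : 0 < N)
  have hN1 : (132 : ℝ) ≤ N := by exact_mod_cast g2
  have haR : (1 : ℝ) ≤ a := by exact_mod_cast ha
  have hbr : |(b : ℝ)| ≤ N := by exact_mod_cast hb
  have hcr : |(c : ℝ)| ≤ N := by exact_mod_cast hc
  -- the small values
  obtain ⟨T, hT⟩ : ∃ T : Finset ℕ, T = (Ioc 0 N).filter (fun m => 2 ≤ |fv a b c m|) := ⟨_, rfl⟩
  have hTc : N ≤ #T + 6 := by
    have h2 : Ioc 0 N ⊆ T ∪ ((Ioc 0 N).filter (fun m => fv a b c m = 0) ∪ ((Ioc 0 N).filter (fun m => fv a b c m = 1) ∪ (Ioc 0 N).filter (fun m => fv a b c m = -1))) := by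
      intro m hm
      simp only [hT, mem_union, mem_filter]
      by_cases h : 2 ≤ |fv a b c m|
      · exact Or.inl ⟨hm, h⟩
      · right
        push Not at h
        rw [abs_lt] at h
        have : fv a b c m = 0 ∨ fv a b c m = 1 ∨ fv a b c m = -1 := by omega
        rcases this with h | h | h
        · exact Or.inl ⟨hm, h⟩
        · exact Or.inr (Or.inl ⟨hm, h⟩)
        · exact Or.inr (Or.inr ⟨hm, h⟩)
    have h3 := card_le_card h2
    rw [Nat.card_Ioc] at h3
    have h4 := card_union_le T ((Ioc 0 N).filter (fun m => fv a b c m = 0) ∪ ((Ioc 0 N).filter (fun m => fv a b c m = 1) ∪ (Ioc 0 N).filter (fun m => fv a b c m = -1)))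
    have h5 := card_union_le ((Ioc 0 N).filter (fun m => fv a b c m = 0)) ((Ioc 0 N).filter (fun m => fv a b c m = 1) ∪ (Ioc 0 N).filter (fun m => fv a b c m = -1))
    have h6 := card_union_le ((Ioc 0 N).filter (fun m => fv a b c m = 1)) ((Ioc 0 N).filter (fun m => fv a b c m = -1))
    have h7 := val_few a b c ha (Ioc 0 N) 0
    have h8 := val_few a b c ha (Ioc 0 N) 1
    have h9 := val_few a b c ha (Ioc 0 N) (-1)
    omega
  have hcast : ∀ m : ℕ, (a : ℝ) * m ^ 2 + b * m + c = ((fv a b c m : ℤ) : ℝ) := by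
    intro m
    unfold fv
    push_cast
    ring
  have hnn : ∀ m : ℕ, 0 ≤ 1 / Real.log ((a : ℝ) * m ^ 2 + b * m + c) := by
    intro m
    rw [hcast, ← Real.log_abs]
    by_cases h : 1 ≤ |fv a b c m|
    · have : (1 : ℝ) ≤ |((fv a b c m : ℤ) : ℝ)| := by exact_mod_cast h
      have := Real.log_nonneg this
      positivity
    · have h0 : fv a b c m = 0 := by
        push Not at h
        rw [abs_lt] at h
        omega
      rw [h0]
      simp
  have hbig : ∀ m ∈ T, 1 / (21 / 10 * L) ≤ 1 / Real.log ((a : ℝ) * m ^ 2 + b * m + c) := by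
    intro m hm
    rw [hT, mem_filter, mem_Ioc] at hm
    obtain ⟨⟨hm0, hmN⟩, hm2⟩ := hm
    have hm2r : (2 : ℝ) ≤ |((fv a b c m : ℤ) : ℝ)| := by exact_mod_cast hm2
    rw [hcast, ← Real.log_abs]
    have hlog : 0 < Real.log |((fv a b c m : ℤ) : ℝ)| := Real.log_pos (by linarith)
    apply one_div_le_one_div_of_le hlog
    have hmr : (m : ℝ) ≤ N := by exact_mod_cast hmN
    have hm0r : (0 : ℝ) ≤ m := Nat.cast_nonneg _
    have hup : |((fv a b c m : ℤ) : ℝ)| ≤ (a + 2) * (N : ℝ) ^ 2 := by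
      rw [← hcast]
      calc |(a : ℝ) * m ^ 2 + b * m + c| ≤ |(a : ℝ) * m ^ 2 + b * m| + |(c : ℝ)| := abs_add_le _ _
        _ ≤ |(a : ℝ) * m ^ 2| + |(b : ℝ) * m| + |(c : ℝ)| := by gcongr; exact abs_add_le _ _
        _ = a * (m : ℝ) ^ 2 + |(b : ℝ)| * m + |(c : ℝ)| := by
            rw [abs_of_nonneg (by positivity : 0 ≤ (a : ℝ) * m ^ 2), abs_mul, abs_of_nonneg hm0r]
        _ ≤ a * (N : ℝ) ^ 2 + N * N + N * N := by
            have e1 : (m : ℝ) ^ 2 ≤ (N : ℝ) ^ 2 := pow_le_pow_left₀ hm0r hmr 2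
            have e2 : |(b : ℝ)| * m ≤ N * N := mul_le_mul hbr hmr hm0r hN0.le
            have e3 : |(c : ℝ)| ≤ N * N := by nlinarith
            have e4 : (a : ℝ) * (m : ℝ) ^ 2 ≤ a * (N : ℝ) ^ 2 := mul_le_mul_of_nonneg_left e1 (by linarith)
            linarith
        _ = _ := by ring
    calc Real.log |((fv a b c m : ℤ) : ℝ)| ≤ Real.log ((a + 2) * (N : ℝ) ^ 2) := Real.log_le_log (by linarith) hup
      _ = Real.log (a + 2) + 2 * L := by
          rw [Real.log_mul (by linarith) (by positivity), Real.log_pow, ← hLd]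
          push_cast
          ring
      _ ≤ 21 / 10 * L := by linarith
  calc (9 / 20 : ℝ) * (N / L) ≤ #T * (1 / (21 / 10 * L)) := by
        have h10 : (N : ℝ) ≤ #T + 6 := by exact_mod_cast hTc
        rw [mul_one_div, mul_div_assoc', div_le_div_iff₀ (by linarith) (by linarith)]
        nlinarith
    _ = ∑ _m ∈ T, 1 / (21 / 10 * L) := by rw [sum_const, nsmul_eq_mul]
    _ ≤ ∑ m ∈ T, 1 / Real.log ((a : ℝ) * m ^ 2 + b * m + c) := sum_le_sum hbig
    _ ≤ ∑ m ∈ Ioc 0 N, 1 / Real.log ((a : ℝ) * m ^ 2 + b * m + c) := by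
        rw [hT]
        exact sum_le_sum_of_subset_of_nonneg (filter_subset _ _) (fun m _ _ => hnn m)

end Pool.Agent.H544.EQ
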