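import Mathlib
import Pool.Agent.H544.EQ.G2

/-!
Quadratic polynomials: the sieve products and the constant.
-/

set_option autoImplicit false

namespace Pool.Agent.H544.EQ

open Finset Filter Topology Polynomial
open Pool.Agent.N792 (fv rho Vc V1 Admissible partialC eps gcdProd)
open Pool.Agent.N792.RX8a (rho_lt)
open Pool.Agent.H544.ES (ev_pow nt_self irr_of_many toNat_prime end_alg SS SS_triv SS_mono V_exp)
open Pool.Agent.H373R2.T7 (ev_L' nuB PerB pz mem_pz Vz)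
open Pool.Agent.W123.RP (Vq Vz_bounds)
open Pool.Agent.W123.RU
open Pool.Agent.Y879.GL (US us_perB us_adm)
open Pool.Agent.H534.RT (NT)
open Pool.Agent.H534.RS (WW WW_pos solN)

/-- the trivial comparison of two products -/
lemma triv_cmp (c : ℕ) (t : ℝ) (ht : 1 ≤ t) : ∃ C : ℝ, 1 ≤ C ∧ ∀ Q : ℕ → ℕ → Prop, PerB Q c → (∀ p : ℕ, p.Prime → nuB Q p < p) →
    ∀ u v : ℕ, 2 ≤ u → u ≤ v → Real.log v ≤ t * Real.log u → Vq Q u ≤ C * Vq Q v ∧ Vq Q v ≤ C * Vq Q u := by
  obtain ⟨K, hK0, hK⟩ := SS_triv c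
  obtain ⟨v0, hv0, hv1, hv⟩ := V_exp c
  have hlt : 0 ≤ Real.log t := Real.log_nonneg ht
  have hE : 1 ≤ Real.exp (c * (Real.log t + K)) := Real.one_le_exp (by positivity)
  refine ⟨Real.exp (c * (Real.log t + K)) / v0, ?_, fun Q hQ hadm u v hu huv hlog => ?_⟩
  · rw [le_div_iff₀ hv0]
    linarith
  · have h1 := hK Q hQ u v hu huv t ht hlog
    have h2 := SS_mono Q u v huv
    obtain ⟨a1, a2⟩ := hv Q hQ hadm u
    obtain ⟨b1, b2⟩ := hv Q hQ hadm v
    constructor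
    · calc Vq Q u ≤ Real.exp (-SS Q u) := a2
        _ ≤ Real.exp (c * (Real.log t + K) + -SS Q v) := Real.exp_le_exp.2 (by linarith)
        _ = Real.exp (c * (Real.log t + K)) * Real.exp (-SS Q v) := Real.exp_add _ _
        _ ≤ Real.exp (c * (Real.log t + K)) * (Vq Q v / v0) := by
            apply mul_le_mul_of_nonneg_left _ (Real.exp_pos _).le
            rw [le_div_iff₀ hv0, mul_comm]
            exact b1
        _ = _ := by ring
    · calc Vq Q v ≤ Real.exp (-SS Q v) := b2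
        _ ≤ Real.exp (-SS Q u) := Real.exp_le_exp.2 (by linarith)
        _ ≤ Vq Q u / v0 := by
            rw [le_div_iff₀ hv0, mul_comm]
            exact a1
        _ ≤ Real.exp (c * (Real.log t + K)) / v0 * Vq Q u := by
            have : 0 ≤ Vq Q u := le_trans (by positivity) a1
            rw [div_mul_eq_mul_div]
            apply div_le_div_of_nonneg_right _ hv0.le
            nlinarith

/-- **The sieve products and the constant.** -/
theorem prod_M (a : ℤ) (ha : 0 < a) (ε : ℝ) (hε : 0 < ε) (hε1 : ε ≤ 1) : ∃ C : ℝ, 1 ≤ C ∧ ∃ N0 : ℕ, ∀ N : ℕ, N0 ≤ N → ∀ b c : ℤ,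
    Admissible a b c → ∀ x : ℕ, N ≤ x → x ≤ 3 * a.toNat * N → QV a x b c → PerB (Poly.Q (ff a b c)) 3 → ∃ S : ℝ, 0 < S ∧ Tendsto (fun y => partialC a b c y) atTop (𝓝 S) ∧
      0 ≤ eps a b * S * gcdProd a b ∧
      Vq (Poly.Q (ff a b c)) N ≤ C * (eps a b * S * gcdProd a b / Real.log N) ∧
      eps a b * S * gcdProd a b / Real.log N ≤ C * Vq (Poly.Q (ff a b c)) N ∧
      Vq (Poly.Q (ff a b c)) ⌊ε * Real.log N⌋₊ * (Real.log (Real.log N) / Real.log N) ≤ C * Vq (Poly.Q (ff a b c)) N := by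
  obtain ⟨c3, C3, hc3, hC3, hVz⟩ := Vz_bounds
  obtain ⟨C4, hC4, h4⟩ := triv_cmp 3 7 (by norm_num)
  obtain ⟨C5, hC5, h5⟩ := triv_cmp 3 80 (by norm_num)
  have hC40 : 0 < C4 := by linarith
  have hC50 : 0 < C5 := by linarith
  have haR : (1 : ℝ) ≤ a := by exact_mod_cast ha
  obtain ⟨n1, h1⟩ := ev_L' (max (max 4 (4 / ε)) (max (4 / ε ^ 2) (Real.log (3 * a))))
  refine ⟨max (max (18 * C4 * C3) (3 * C4 / c3)) (max (2 * C5 * C3 * (3 * C4 / c3)) 1), (le_max_right _ _).trans (le_max_right _ _),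
    max n1 4, fun N hN b c hadm x hxN hx3 hQV hper => ?_⟩
  have g1 : n1 ≤ N := (le_max_left _ _).trans hN
  have g2 : 4 ≤ N := (le_max_right _ _).trans hN
  have hL := h1 N g1
  obtain ⟨L, hLd⟩ : ∃ L : ℝ, L = Real.log N := ⟨_, rfl⟩
  rw [← hLd] at hL ⊢
  have hL4 : 4 ≤ L := ((le_max_left _ _).trans (le_max_left _ _)).trans hL
  have hLε : 4 / ε ≤ L := ((le_max_right _ _).trans (le_max_left _ _)).trans hL
  have hLε2 : 4 / ε ^ 2 ≤ L := ((le_max_left _ _).trans (le_max_right _ _)).trans hL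
  have hLa : Real.log (3 * a) ≤ L := ((le_max_right _ _).trans (le_max_right _ _)).trans hL
  have hL0 : 0 < L := by linarith
  have hN0 : (0 : ℝ) < N := by exact_mod_cast (by omega : 0 < N)
  have hNr : (4 : ℝ) ≤ N := by exact_mod_cast g2
  obtain ⟨S, w, z, s1, s2, s3, s4, s5, s6, s7, s8, s9⟩ := hQV hadm
  have hxr : (x : ℝ) ≤ 3 * a * N := by
    have h7 : ((a.toNat : ℕ) : ℝ) = a := by
      have : ((a.toNat : ℕ) : ℤ) = a := by omega
      exact_mod_cast this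
    have h8 : ((x : ℕ) : ℝ) ≤ ((3 * a.toNat * N : ℕ) : ℝ) := by exact_mod_cast hx3
    push_cast at h8
    rw [h7] at h8
    exact h8
  have hxNr : (N : ℝ) ≤ x := by exact_mod_cast hxN
  have hxpos : (0 : ℝ) < x := by linarith
  obtain ⟨X, hX⟩ : ∃ X : ℝ, X = Real.log x := ⟨_, rfl⟩
  rw [← hX] at s3 s4
  have hXe : X ≤ Real.log (3 * a) + L := by
    rw [hX, hLd, ← Real.log_mul (by linarith) hN0.ne']
    exact Real.log_le_log hxpos hxr
  have hX1 : L ≤ X := by
    rw [hX, hLd]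
    exact Real.log_le_log hN0 hxNr
  have hX2 : X ≤ 2 * L := by linarith
  have hX0 : 0 < X := by linarith
  have hlL : 1 < Real.log L := by
    rw [Real.lt_log_iff_exp_lt hL0]
    have := Real.exp_one_lt_d9
    linarith
  have hlX1 : Real.log L ≤ Real.log X := Real.log_le_log hL0 hX1
  have hlX2 : Real.log X ≤ 2 * Real.log L := by
    calc Real.log X ≤ Real.log (L ^ 2) := Real.log_le_log hX0 (by nlinarith)
      _ = 2 * Real.log L := by rw [Real.log_pow]; norm_num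
  have hw0 : (0 : ℝ) < w := lt_of_lt_of_le (by positivity) s3
  have hz0 : (0 : ℝ) < z := lt_of_lt_of_le (by positivity) s6
  have hlw1 : 18 * Real.log X ≤ Real.log w := by
    calc 18 * Real.log X = Real.log (X ^ 18) := by rw [Real.log_pow]; norm_num
      _ ≤ Real.log w := Real.log_le_log (by positivity) s3
  have hlw2 : Real.log w ≤ 19 * Real.log X := by
    calc Real.log w ≤ Real.log (X ^ 19) := Real.log_le_log hw0 s4
      _ = 19 * Real.log X := by rw [Real.log_pow]; norm_num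
  have hlz1 : L / 6 ≤ Real.log z := by
    calc L / 6 ≤ 1 / 6 * X := by linarith
      _ = Real.log ((x : ℝ) ^ (1 / 6 : ℝ)) := by rw [Real.log_rpow hxpos, hX]
      _ ≤ Real.log z := Real.log_le_log (by positivity) s6
  have hlz2 : Real.log z ≤ 2 / 5 * L := by
    calc Real.log z ≤ Real.log ((x : ℝ) ^ (1 / 5 : ℝ)) := Real.log_le_log hz0 s7
      _ = 1 / 5 * X := by rw [Real.log_rpow hxpos, hX]
      _ ≤ 2 / 5 * L := by linarith
  have hlz0 : 0 < Real.log z := by linarith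
  have hlw0 : 0 < Real.log w := by linarith
  have hw2 : 2 ≤ w := by
    by_contra hcon
    have : w ≤ 1 := by omega
    have h6 : Real.log w ≤ 0 := Real.log_nonpos hw0.le (by exact_mod_cast this)
    linarith
  have hz2 : 2 ≤ z := hw2.trans s5
  have hzN : z ≤ N := by
    have : (z : ℝ) ≤ N := by
      rw [← Real.log_le_log_iff hz0 hN0, ← hLd]
      linarith
    exact_mod_cast this
  obtain ⟨y, hy⟩ : ∃ y : ℕ, y = ⌊ε * L⌋₊ := ⟨_, rfl⟩
  rw [div_le_iff₀ hε] at hLε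
  rw [div_le_iff₀ (by positivity)] at hLε2
  have hy1 : ε * L / 2 ≤ y := by
    have := Nat.lt_floor_add_one (ε * L)
    rw [← hy] at this
    nlinarith
  have hy2 : 2 ≤ y := by
    have : (2 : ℝ) ≤ y := by nlinarith
    exact_mod_cast this
  have hyL : (y : ℝ) ≤ L := by
    have := Nat.floor_le (show 0 ≤ ε * L by positivity)
    rw [← hy] at this
    nlinarith
  have hy0 : (0 : ℝ) < y := by exact_mod_cast (by omega : 0 < y)
  have hly : Real.log L ≤ 2 * Real.log y := by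
    calc Real.log L ≤ Real.log ((y : ℝ) ^ 2) := by
          apply Real.log_le_log hL0
          calc L ≤ (ε * L / 2) ^ 2 := by nlinarith
            _ ≤ (y : ℝ) ^ 2 := pow_le_pow_left₀ (by positivity) hy1 2
      _ = 2 * Real.log y := by rw [Real.log_pow]; norm_num
  have hyw : y ≤ w := by
    have : (y : ℝ) ≤ w := by
      calc (y : ℝ) ≤ L := hyL
        _ ≤ X := hX1
        _ = X ^ 1 := (pow_one X).symm
        _ ≤ X ^ 18 := pow_le_pow_right₀ (by linarith) (by norm_num)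
        _ ≤ w := s3
    exact_mod_cast this
  rw [← hy]
  -- the products
  have hadmQ : ∀ p : ℕ, p.Prime → nuB (Poly.Q (ff a b c)) p < p := fun p hp => by rw [ff_nu]; exact rho_lt a b c hadm p hp
  obtain ⟨u1, u2⟩ := h4 _ hper hadmQ z N hz2 hzN (by rw [← hLd]; linarith)
  obtain ⟨u3, u4⟩ := h5 _ hper hadmQ y w hy2 hyw (by linarith)
  obtain ⟨v1, v2⟩ := hVz z hz2
  obtain ⟨v3, v4⟩ := hVz w hw2
  have hVpos : ∀ y : ℕ, 0 < Vq (Poly.Q (ff a b c)) y := by
    intro y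
    unfold Vq
    apply prod_pos
    intro p hp
    have hpp := (mem_pz.1 hp).2
    have h20 : (nuB (Poly.Q (ff a b c)) p : ℝ) < p := by exact_mod_cast hadmQ p hpp
    have h21 : (0 : ℝ) < p := by exact_mod_cast hpp.pos
    rw [sub_pos, div_lt_one h21]
    exact h20
  rw [← Vc_eq, ← Vc_eq, ← V1_eq, ← V1_eq] at s8
  rw [← Vc_eq, ← V1_eq] at s9
  obtain ⟨Pz, hPz⟩ : ∃ Pz : ℝ, Pz = Vq (Poly.Q (ff a b c)) z := ⟨_, rfl⟩
  obtain ⟨Pw, hPw⟩ : ∃ Pw : ℝ, Pw = Vq (Poly.Q (ff a b c)) w := ⟨_, rfl⟩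
  obtain ⟨Pn, hPn⟩ : ∃ Pn : ℝ, Pn = Vq (Poly.Q (ff a b c)) N := ⟨_, rfl⟩
  obtain ⟨Py, hPy⟩ : ∃ Py : ℝ, Py = Vq (Poly.Q (ff a b c)) y := ⟨_, rfl⟩
  obtain ⟨Wz, hWz⟩ : ∃ Wz : ℝ, Wz = Vz z := ⟨_, rfl⟩
  obtain ⟨Ww, hWw⟩ : ∃ Ww : ℝ, Ww = Vz w := ⟨_, rfl⟩
  obtain ⟨M, hM⟩ : ∃ M : ℝ, M = eps a b * S * gcdProd a b := ⟨_, rfl⟩
  have hPz0 := hVpos z
  have hPw0 := hVpos w
  have hPn0 := hVpos N
  rw [← hPz] at hPz0 s8 u1 u2
  rw [← hPw] at hPw0 s8 s9 u3
  rw [← hPn] at hPn0 u1 u2 ⊢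
  rw [← hPy] at u3 ⊢
  rw [← hWz] at s8 v1 v2
  rw [← hWw] at s8 s9 v3 v4
  rw [← hM] at s9
  have hWz0 : 0 < Wz := lt_of_lt_of_le (by positivity) v1
  have hWw0 : 0 < Ww := lt_of_lt_of_le (by positivity) v3
  obtain ⟨Aw, hAw⟩ : ∃ Aw : ℝ, Aw = Pw / Ww := ⟨_, rfl⟩
  have hPwe : Pw = Aw * Ww := by rw [hAw]; field_simp
  have hAw0 : 0 < Aw := by rw [hAw]; positivity
  rw [← hAw] at s9
  have k1 := abs_le.1 s8
  have k2 := abs_le.1 s9
  -- `Pz` between `Aw Wz / 2` and `3 Aw Wz / 2`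
  have hz3 : Pz ≤ 3 / 2 * (Aw * Wz) := by
    have : Pz * Ww ≤ 3 / 2 * (Aw * Wz) * Ww := by
      have := k1.2
      rw [hPwe] at this
      nlinarith
    exact le_of_mul_le_mul_right this hWw0
  have hz4 : 1 / 2 * (Aw * Wz) ≤ Pz := by
    have : 1 / 2 * (Aw * Wz) * Ww ≤ Pz * Ww := by
      have := k1.1
      rw [hPwe] at this
      nlinarith
    exact le_of_mul_le_mul_right this hWw0
  have hM1 : Aw ≤ 2 * M := by linarith [k2.1]
  have hM2 : 2 / 3 * M ≤ Aw := by linarith [k2.2]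
  have hM0 : 0 < M := by linarith
  -- (1)
  have f1 : Pn ≤ 18 * C4 * C3 * (M / L) := by
    have e1 : Wz ≤ 6 * C3 / L := by
      refine v2.trans ?_
      rw [div_le_div_iff₀ hlz0 hL0]
      nlinarith
    calc Pn ≤ C4 * Pz := u2
      _ ≤ C4 * (3 / 2 * (Aw * Wz)) := by gcongr
      _ ≤ C4 * (3 / 2 * ((2 * M) * (6 * C3 / L))) := by gcongr
      _ = 18 * C4 * C3 * (M / L) := by ring
  -- (2)
  have f2 : M / L ≤ 3 * C4 / c3 * Pn := by
    have e1 : c3 / L ≤ Wz := by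
      refine le_trans ?_ v1
      apply div_le_div_of_nonneg_left hc3.le hlz0
      linarith
    have e2 : 1 / 3 * (M * (c3 / L)) ≤ C4 * Pn := by
      calc 1 / 3 * (M * (c3 / L)) = 1 / 2 * ((2 / 3 * M) * (c3 / L)) := by ring
        _ ≤ 1 / 2 * (Aw * Wz) := by gcongr
        _ ≤ Pz := hz4
        _ ≤ C4 * Pn := u1
    calc M / L = 3 / c3 * (1 / 3 * (M * (c3 / L))) := by field_simp
      _ ≤ 3 / c3 * (C4 * Pn) := by gcongr
      _ = _ := by ring
  have f3 : Py * (Real.log L / L) ≤ 2 * C5 * C3 * (3 * C4 / c3) * Pn := by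
    have e1 : Ww * (Real.log L / L) ≤ C3 / L := by
      calc Ww * (Real.log L / L) ≤ C3 / Real.log w * (Real.log L / L) := by
            apply mul_le_mul_of_nonneg_right v4
            positivity
        _ = C3 / L * (Real.log L / Real.log w) := by ring
        _ ≤ C3 / L * 1 := by
            apply mul_le_mul_of_nonneg_left _ (by positivity)
            rw [div_le_one hlw0]
            linarith
        _ = C3 / L := mul_one _
    calc Py * (Real.log L / L) ≤ C5 * Pw * (Real.log L / L) := by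
          apply mul_le_mul_of_nonneg_right u3
          positivity
      _ = C5 * (Aw * (Ww * (Real.log L / L))) := by rw [hPwe]; ring
      _ ≤ C5 * ((2 * M) * (C3 / L)) := by gcongr
      _ = 2 * C5 * C3 * (M / L) := by ring
      _ ≤ 2 * C5 * C3 * (3 * C4 / c3 * Pn) := by gcongr
      _ = _ := by ring
  have hML : 0 ≤ M / L := by positivity
  refine ⟨S, s1, s2, ?_⟩
  rw [← hM]
  refine ⟨hM0.le, ?_, ?_, ?_⟩
  · exact f1.trans (mul_le_mul_of_nonneg_right ((le_max_left _ _).trans (le_max_left _ _)) hML)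
  · exact f2.trans (mul_le_mul_of_nonneg_right ((le_max_right _ _).trans (le_max_left _ _)) hPn0.le)
  · exact f3.trans (mul_le_mul_of_nonneg_right ((le_max_left _ _).trans (le_max_right _ _)) hPn0.le)

end Pool.Agent.H544.EQ
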