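import Mathlib
import Pool.Agent.H544.EQ.G3

/-!
**Dense sets of arguments with prime values of quadratic polynomials.**
-/

set_option autoImplicit false

namespace Pool.Agent.H544.EQ

open Finset Filter Topology Polynomial
open Pool.Agent.N792 (fv rho Vc V1 Admissible partialC eps gcdProd)
open Pool.Agent.N792.RX8a (rho_lt)
open Pool.Agent.H544.ES (ev_pow nt_self irr_of_many toNat_prime end_alg SS SS_triv SS_mono V_exp)
open Pool.Agent.H373R2.T7 (ev_L' nuB PerB pz mem_pz Vz)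
open Pool.Agent.W123.RP (Vq Vz_bounds)
open Pool.Agent.W123.RU
open Pool.Agent.Y879.GL (US us_perB us_adm)
open Pool.Agent.H534.RT (NT)
open Pool.Agent.H534.RS (WW WW_pos solN)

/-- the arguments up to `N` with a prime value -/
def PP (a b c : ℤ) (N : ℕ) : Finset ℕ := (Ioc 0 N).filter (fun m : ℕ => (fv a b c m).toNat.Prime)

/-- constellations of every shape in the sets `T` of arguments with prime values of size at least `κ Y` -/
def Shp (r : ℕ) (κ δ γ : ℝ) (N : ℕ) (P : Finset ℕ) (Y : ℝ) : Prop :=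
  ∀ T : Finset ℕ, T ⊆ P → κ * Y ≤ (#T : ℝ) → ∀ b : Fin r → ℕ, Function.Injective b → (∀ l, 1 ≤ b l) →
    (∀ l, (b l : ℝ) ≤ (N : ℝ) ^ (1 - δ)) →
    ∃ D' : Finset ℕ, γ * (N : ℝ) ^ (δ / 8) ≤ (#D' : ℝ) ∧ ∀ d ∈ D', 1 ≤ d ∧ (d : ℝ) ≤ (N : ℝ) ^ (δ / 8) ∧
      γ * (Real.log (Real.log N) / Real.log N) ^ r * Y ≤
        (#(T.filter (fun n => ∀ l, n + primorial ⌊δ / 8 * Real.log N⌋₊ * (b l * d) ∈ T)) : ℝ)

/-- one polynomial -/
theorem one_poly (a : ℤ) (ha : 0 < a) (r : ℕ) (hr : 1 ≤ r) (κ δ θ : ℝ) (hκ : 0 < κ) (hδ : 0 < δ) (hδ1 : δ ≤ 1) (hθ : 0 < θ) :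
    ∃ γ : ℝ, 0 < γ ∧ ∃ N0 : ℕ, ∀ N : ℕ, N0 ≤ N → ∀ b c : ℤ, |b| ≤ N → |c| ≤ N → Admissible a b c → ∀ x : ℕ, N ≤ x → x ≤ 3 * a.toNat * N → QV a x b c →
      ∀ S : ℝ, Tendsto (fun y => partialC a b c y) atTop (𝓝 S) → θ ≤ eps a b * S * gcdProd a b →
      1 / 5 * (eps a b * S * gcdProd a b * N / Real.log N) ≤ (#(PP a b c N) : ℝ) →
      Shp r κ δ γ N (PP a b c N) (eps a b * S * gcdProd a b * N / Real.log N) := by
  classical
  obtain ⟨ε, hε⟩ : ∃ ε : ℝ, ε = δ / 8 := ⟨_, rfl⟩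
  have hε0 : 0 < ε := by rw [hε]; positivity
  have hε1 : ε ≤ 1 := by rw [hε]; linarith
  obtain ⟨C2, hC2, n1, h1⟩ := prod_M a ha ε hε0 hε1
  have hC20 : 0 < C2 := by linarith
  obtain ⟨c', hc', n2, h2⟩ := Pool.Agent.H534.RT.uniP 1 2 1 r le_rfl hr (1 / 2) (κ / (2 * C2)) ε (by norm_num) (by positivity) hε0
    (by rw [hε]; linarith)
  obtain ⟨n3, h3⟩ := ev_L' 3
  obtain ⟨n4, h4⟩ := ev_pow 1 (1 / 2) (κ * θ / 4) (by norm_num) (by positivity)
  obtain ⟨n5, h5⟩ := ev_pow 1 (1 / 2) (θ / 21) (by norm_num) (by positivity)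
  refine ⟨min c' (c' / (C2 * C2 ^ r)), lt_min hc' (by positivity), max (max (max n1 n2) (max n3 n4)) (max n5 a.toNat), ?_⟩
  intro N hN b c hb hc hadm x hx1 hx2 hQV S hS hMθ hP T hT hTc bb hbb hbb1 hbb2
  have g1 : n1 ≤ N := le_trans (le_trans (le_trans (le_max_left _ _) (le_max_left _ _)) (le_max_left _ _)) hN
  have g2 : n2 ≤ N := le_trans (le_trans (le_trans (le_max_right _ _) (le_max_left _ _)) (le_max_left _ _)) hN
  have g3 : n3 ≤ N := le_trans (le_trans (le_trans (le_max_left _ _) (le_max_right _ _)) (le_max_left _ _)) hN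
  have g4 : n4 ≤ N := le_trans (le_trans (le_trans (le_max_right _ _) (le_max_right _ _)) (le_max_left _ _)) hN
  have g5 : n5 ≤ N := le_trans (le_trans (le_max_left _ _) (le_max_right _ _)) hN
  have g6 : a.toNat ≤ N := le_trans (le_trans (le_max_right _ _) (le_max_right _ _)) hN
  have q3 := h3 N g3
  have q4 := h4 N g4
  have q5 := h5 N g5
  obtain ⟨L, hL⟩ : ∃ L : ℝ, L = Real.log N := ⟨_, rfl⟩
  rw [← hL] at q3 q4 q5
  rw [pow_one] at q4 q5
  have hL0 : 0 < L := by linarith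
  have hN1 : 1 ≤ N := by
    by_contra h0
    have : N = 0 := by omega
    rw [this, Nat.cast_zero, Real.log_zero] at hL
    linarith
  have hN0 : (0 : ℝ) < N := by exact_mod_cast hN1
  have hNr : (1 : ℝ) ≤ N := by exact_mod_cast hN1
  obtain ⟨s, hs⟩ : ∃ s : ℝ, s = (N : ℝ) ^ (1 / 2 : ℝ) := ⟨_, rfl⟩
  have hss : s * s = N := by
    rw [hs, ← Real.sqrt_eq_rpow]
    exact Real.mul_self_sqrt hN0.le
  have hs0 : 0 < s := by rw [hs]; positivity
  have hs1 : 1 ≤ s := by rw [hs]; exact Real.one_le_rpow hNr (by norm_num)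
  rw [← hs] at q4 q5
  obtain ⟨M, hM⟩ : ∃ M : ℝ, M = eps a b * S * gcdProd a b := ⟨_, rfl⟩
  rw [← hM] at hMθ hP hTc ⊢
  obtain ⟨Y, hY⟩ : ∃ Y : ℝ, Y = M * N / Real.log N := ⟨_, rfl⟩
  rw [← hY] at hP hTc ⊢
  have hM0 : 0 < M := by linarith
  rw [← hL] at hY
  have hY0 : 0 < Y := by rw [hY]; positivity
  -- many primes
  have hmany : 4 < #((Ioc 0 N).filter (fun m : ℕ => (fv a b c m).toNat.Prime)) := by
    have e1 : (4 : ℝ) < 1 / 5 * Y := by
      have e2 : 21 * L ≤ θ * s := by linarith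
      have e3 : 21 * L ≤ M * N := by
        calc 21 * L ≤ θ * s := e2
          _ ≤ M * (s * s) := by
              apply mul_le_mul hMθ _ hs0.le hM0.le
              nlinarith
          _ = M * N := by rw [hss]
      have e4 : 21 ≤ Y := by
        rw [hY, le_div_iff₀ hL0]
        exact e3
      linarith
    have e5 : (4 : ℝ) < (#((Ioc 0 N).filter (fun m : ℕ => (fv a b c m).toNat.Prime)) : ℝ) := lt_of_lt_of_le e1 hP
    exact_mod_cast e5
  have haN : a ≤ N := by omega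
  have hus := ff_us a b c ha N haN hb hc hadm hmany
  have hNT := ff_nt a b c ha (WW ε N) N
  have hper : PerB (Poly.Q (ff a b c)) 3 := us_perB hus
  obtain ⟨S', p1, p2, p3, p4, p5, p6⟩ := h1 N g1 b c hadm x hx1 hx2 hQV hper
  have hSS : S' = S := tendsto_nhds_unique p2 hS
  rw [hSS, ← hM] at p3 p4 p5
  rw [← hL] at p4 p5 p6
  -- the large values
  obtain ⟨T', hT'⟩ : ∃ T' : Finset ℕ, T' = T.filter (fun n => Nat.sqrt N < (fv a b c n).toNat) := ⟨_, rfl⟩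
  have hTS : T' ⊆ T := by rw [hT']; exact filter_subset _ _
  have hTp : ∀ n ∈ T, (fv a b c n).toNat.Prime := fun n hn => (mem_filter.1 (hT hn)).2
  have hsm := small_few a b c ha N T hTp
  have hTcard : (#T : ℝ) = #T' + #(T.filter (fun n => ¬ Nat.sqrt N < (fv a b c n).toNat)) := by
    rw [hT']
    exact_mod_cast (card_filter_add_card_filter_not (s := T) (fun n => Nat.sqrt N < (fv a b c n).toNat)).symm
  have hhalf : 2 * s ≤ κ / 2 * Y := by
    rw [hY, mul_div_assoc', le_div_iff₀ hL0]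
    calc 2 * s * L ≤ 2 * s * (κ * θ / 4 * s) := mul_le_mul_of_nonneg_left q4 (by positivity)
      _ = κ / 2 * (θ * (s * s)) := by ring
      _ = κ / 2 * (θ * N) := by rw [hss]
      _ ≤ κ / 2 * (M * N) := by gcongr
  rw [← hs] at hsm
  have hTlow : κ / (2 * C2) * (N * Vq (Poly.Q (ff a b c)) N) ≤ (#T' : ℝ) := by
    calc κ / (2 * C2) * (N * Vq (Poly.Q (ff a b c)) N) ≤ κ / (2 * C2) * (N * (C2 * (M / L))) := by
          apply mul_le_mul_of_nonneg_left _ (by positivity)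
          exact mul_le_mul_of_nonneg_left p4 hN0.le
      _ = κ / 2 * Y := by rw [hY]; field_simp
      _ ≤ #T' := by linarith
  have hTI : T' ⊆ Ioc 0 (0 + N) := by
    intro n hn
    rw [zero_add]
    exact (mem_filter.1 (hT (hTS hn))).1
  have hTr : ∀ n ∈ T', ∀ i, ∀ p : ℕ, p.Prime → (p : ℝ) ≤ (N : ℝ) ^ (1 / 2 : ℝ) → ¬ (p : ℤ) ∣ (ff a b c i).eval (n : ℤ) := by
    intro n hn i p hp hpx hdv
    rw [ff_eval] at hdv
    have hnT := hTS hn
    rw [hT', mem_filter] at hn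
    have hpr := hTp n hnT
    rw [← (toNat_prime _ hpr).2, Int.natCast_dvd_natCast, Nat.prime_dvd_prime_iff_eq hp hpr] at hdv
    have h12 := hn.2
    rw [← hdv] at h12
    have h13 : p ≤ Nat.sqrt N := by
      rw [Nat.le_sqrt', ← Nat.cast_le (α := ℝ)]
      push_cast
      calc (p : ℝ) ^ 2 ≤ ((N : ℝ) ^ (1 / 2 : ℝ)) ^ 2 := pow_le_pow_left₀ (Nat.cast_nonneg _) hpx 2
        _ = N := by
          rw [← Real.rpow_natCast, ← Real.rpow_mul hN0.le]
          norm_num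
    omega
  have hne : ∀ n ∈ Ioc 0 (0 + N), ∀ i, (ff a b c i).eval (n : ℤ) ≠ 0 := by
    intro n hn i
    rw [ff_eval]
    exact ff_ne a b c hadm n
  have hbb' : ∀ l, (bb l : ℝ) ≤ N / ((N : ℝ) ^ ε) ^ 5 := by
    intro l
    refine (hbb2 l).trans ?_
    rw [le_div_iff₀ (by positivity), ← Real.rpow_natCast, ← Real.rpow_mul hN0.le, ← Real.rpow_add hN0]
    calc (N : ℝ) ^ (1 - δ + ε * ((5 : ℕ) : ℝ)) ≤ (N : ℝ) ^ (1 : ℝ) := by
          apply Real.rpow_le_rpow_of_exponent_le hNr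
          rw [hε]
          push_cast
          linarith
      _ = N := Real.rpow_one _
  obtain ⟨D', hD1, hD2⟩ := h2 N g2 (ff a b c) hus hNT 0 T' (by rw [Nat.cast_zero]; positivity) hne hTI hTr hTlow bb hbb hbb1 hbb'
  refine ⟨D', ?_, fun d hdD => ?_⟩
  · rw [← hε]
    refine le_trans ?_ hD1
    exact mul_le_mul_of_nonneg_right (min_le_left _ _) (by positivity)
  · obtain ⟨u1, u2, u3⟩ := hD2 d hdD
    rw [← hε]
    refine ⟨u1, u2, ?_⟩
    have hadmQ : ∀ p : ℕ, p.Prime → nuB (Poly.Q (ff a b c)) p < p := fun p hp => by rw [ff_nu]; exact rho_lt a b c hadm p hp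
    have hVpos : ∀ y : ℕ, 0 < Vq (Poly.Q (ff a b c)) y := by
      intro y
      unfold Vq
      apply prod_pos
      intro p hp
      have hpp := (mem_pz.1 hp).2
      have h20 : (nuB (Poly.Q (ff a b c)) p : ℝ) < p := by exact_mod_cast hadmQ p hpp
      have h21 : (0 : ℝ) < p := by exact_mod_cast hpp.pos
      rw [sub_pos, div_lt_one h21]
      exact h20
    have hR : 0 ≤ Real.log (Real.log N) / Real.log N := by
      rw [← hL]
      have : 0 ≤ Real.log L := Real.log_nonneg (by linarith)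
      positivity
    have hY2 : Y ≤ C2 * (N * Vq (Poly.Q (ff a b c)) N) := by
      calc Y = N * (M / L) := by rw [hY]; ring
        _ ≤ N * (C2 * Vq (Poly.Q (ff a b c)) N) := mul_le_mul_of_nonneg_left p5 hN0.le
        _ = _ := by ring
    rw [hL] at p6
    have hfin := end_alg r c' C2 N (Vq (Poly.Q (ff a b c)) N) (Vq (Poly.Q (ff a b c)) ⌊ε * Real.log N⌋₊) Y (Real.log (Real.log N) / Real.log N) _ hc' hC2 hN0
      (hVpos _) (hVpos _) hY0.le hR hY2 p6 u3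
    have hsub : solN T' (WW ε N) bb d ⊆ T.filter (fun n => ∀ l, n + primorial ⌊ε * Real.log N⌋₊ * (bb l * d) ∈ T) := by
      intro n hn
      unfold solN at hn
      rw [mem_filter] at hn ⊢
      refine ⟨hTS hn.1, fun l => ?_⟩
      have := hTS (hn.2 l)
      rw [mul_assoc] at this
      exact this
    calc min c' (c' / (C2 * C2 ^ r)) * (Real.log (Real.log N) / Real.log N) ^ r * Y ≤
          c' / (C2 * C2 ^ r) * (Real.log (Real.log N) / Real.log N) ^ r * Y := by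
          apply mul_le_mul_of_nonneg_right _ hY0.le
          exact mul_le_mul_of_nonneg_right (min_le_right _ _) (pow_nonneg hR _)
      _ ≤ _ := hfin
      _ ≤ _ := by exact_mod_cast card_le_card hsub

/-- **Almost all pairs.** -/
theorem quad (a : ℤ) (ha : 0 < a) (r : ℕ) (hr : 1 ≤ r) (ε η κ δ : ℝ) (hε : 0 < ε) (hη : 0 < η) (hκ : 0 < κ) (hδ : 0 < δ) (hδ1 : δ ≤ 1) :
    ∃ θ γ : ℝ, 0 < θ ∧ 0 < γ ∧ ∃ H0 : ℕ, ∀ H : ℕ, H0 ≤ H → ∀ N : ℕ, H ^ 2 ≤ N → (N : ℝ) ≤ (H : ℝ) ^ (3 - ε) →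
      ∃ Ex ⊆ Icc (-(H : ℤ)) H ×ˢ Icc (-(H : ℤ)) H, (#Ex : ℝ) ≤ η * H ^ 2 ∧
        ∀ q ∈ Icc (-(H : ℤ)) H ×ˢ Icc (-(H : ℤ)) H, q ∉ Ex → Admissible a q.1 q.2 →
          ∃ S : ℝ, 0 < S ∧ Tendsto (fun z => partialC a q.1 q.2 z) atTop (𝓝 S) ∧ θ ≤ eps a q.1 * S * gcdProd a q.1 ∧
            1 / 5 * (eps a q.1 * S * gcdProd a q.1 * N / Real.log N) ≤ (#(PP a q.1 q.2 N) : ℝ) ∧
            Shp r κ δ γ N (PP a q.1 q.2 N) (eps a q.1 * S * gcdProd a q.1 * N / Real.log N) := by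
  classical
  obtain ⟨η', hη'⟩ : ∃ η' : ℝ, η' = min (η / 2) (1 / 50) := ⟨_, rfl⟩
  have hη'0 : 0 < η' := by rw [hη']; exact lt_min (by positivity) (by norm_num)
  have hη'1 : η' ≤ η / 2 := by rw [hη']; exact min_le_left _ _
  have hη'2 : η' ≤ 1 / 50 := by rw [hη']; exact min_le_right _ _
  obtain ⟨θ, hθ, H1, h1⟩ := Pool.Agent.H568.pair_L3 a ha ε η' hε hη'0
  obtain ⟨H2, h2⟩ := pair_QV a ha (η / 2) (by positivity)
  obtain ⟨γ, hγ, N1, h3⟩ := one_poly a ha r hr κ δ θ hκ hδ hδ1 hθ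
  obtain ⟨N2, h4⟩ := li_low a ha
  obtain ⟨N3, h5⟩ := ev_L' 1
  refine ⟨θ, γ, hθ, hγ, max (max H1 H2) (max (max N1 N2) (max N3 1)), fun H hH N hN1 hN2 => ?_⟩
  have g1 : H1 ≤ H := le_trans (le_trans (le_max_left _ _) (le_max_left _ _)) hH
  have g2 : H2 ≤ H := le_trans (le_trans (le_max_right _ _) (le_max_left _ _)) hH
  have g3 : N1 ≤ H := le_trans (le_trans (le_trans (le_max_left _ _) (le_max_left _ _)) (le_max_right _ _)) hH
  have g4 : N2 ≤ H := le_trans (le_trans (le_trans (le_max_right _ _) (le_max_left _ _)) (le_max_right _ _)) hH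
  have g5 : N3 ≤ H := le_trans (le_trans (le_trans (le_max_left _ _) (le_max_right _ _)) (le_max_right _ _)) hH
  have g6 : 1 ≤ H := le_trans (le_trans (le_trans (le_max_right _ _) (le_max_right _ _)) (le_max_right _ _)) hH
  have hHN : H ≤ N := by nlinarith
  have hH1 : (1 : ℝ) ≤ H := by exact_mod_cast g6
  obtain ⟨Ex1, a1, a2, a3⟩ := h1 H g1 N hN1 hN2
  obtain ⟨Ex2, b1, b2, b3⟩ := h2 H g2 N hN1 (hN2.trans (Real.rpow_le_rpow_of_exponent_le hH1 (by linarith)))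
  refine ⟨Ex1 ∪ Ex2, union_subset a1 b1, ?_, fun q hq hqE hadm => ?_⟩
  · have e1 : (#(Ex1 ∪ Ex2) : ℝ) ≤ #Ex1 + #Ex2 := by exact_mod_cast card_union_le _ _
    have e2 : (0 : ℝ) ≤ (H : ℝ) ^ 2 := by positivity
    nlinarith
  · rw [mem_union, not_or] at hqE
    obtain ⟨S, s1, s2, s3, s4⟩ := a3 q hq hqE.1 hadm
    have hqq := mem_product.1 hq
    have hb : |q.1| ≤ N := by
      rw [abs_le]
      have := mem_Icc.1 hqq.1
      omega
    have hc : |q.2| ≤ N := by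
      rw [abs_le]
      have := mem_Icc.1 hqq.2
      omega
    have hli := h4 N (g4.trans hHN) q.1 q.2 hb hc
    have hcount := s4 0 N (Nat.zero_le _) le_rfl
    have hL1 := h5 N (g5.trans hHN)
    have hN0 : (0 : ℝ) < N := by exact_mod_cast (by omega : 0 < N)
    have hat : 1 ≤ a.toNat := by omega
    have hx1 : N ≤ 2 * a.toNat * N := by nlinarith
    have hx2 : 2 * a.toNat * N ≤ 3 * a.toNat * N := by nlinarith
    have hP : 1 / 5 * (eps a q.1 * S * gcdProd a q.1 * N / Real.log N) ≤ (#(PP a q.1 q.2 N) : ℝ) := by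
      refine le_trans ?_ hcount
      obtain ⟨M, hM⟩ : ∃ M : ℝ, M = eps a q.1 * S * gcdProd a q.1 := ⟨_, rfl⟩
      rw [← hM] at s3 ⊢
      have hM0 : 0 < M := by linarith
      obtain ⟨Sg, hSg⟩ : ∃ Sg : ℝ, Sg = ∑ m ∈ Ioc 0 N, 1 / Real.log ((a : ℝ) * m ^ 2 + q.1 * m + q.2) := ⟨_, rfl⟩
      rw [← hSg] at hli ⊢
      obtain ⟨R, hR⟩ : ∃ R : ℝ, R = N / Real.log N := ⟨_, rfl⟩
      have hR0 : 0 < R := by rw [hR]; exact div_pos hN0 (by linarith)
      rw [← hR] at hli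
      have e1 : M * N / Real.log N = M * R := by rw [hR]; ring
      rw [e1]
      have e2 : M * (9 / 20 * R) ≤ M * Sg := mul_le_mul_of_nonneg_left hli hM0.le
      have e3 : 0 < M * R := by positivity
      have e4 : η' * (M * R) ≤ 1 / 50 * (M * R) := mul_le_mul_of_nonneg_right hη'2 e3.le
      nlinarith
    exact ⟨S, s1, s2, s3, hP, h3 N (g3.trans hHN) q.1 q.2 hb hc hadm _ hx1 hx2 (b3 q hq hqE.2) S s2 s3 hP⟩

end Pool.Agent.H544.EQ
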