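import Mathlib
import Pool.Agent.H544.EQ.G4

/-!
**Dense sets of arguments with prime values of quadratic polynomials: one parameter.**
-/

set_option autoImplicit false

namespace Pool.Agent.H544.EQ

open Finset Filter Topology Polynomial
open Pool.Agent.N792 (fv rho Vc V1 Admissible partialC eps gcdProd)
open Pool.Agent.N791.U (Unif neg_transfer adm_shift eps_shift gcd_shift partialC_shift)
open Pool.Agent.H568 (QLL unif_ofL conL neg_tL)
open Pool.Agent.H544.ES (ev_pow)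
open Pool.Agent.H373R2.T7 (ev_L')

lemma QV_shift (a b c s : ℤ) (x : ℕ) (h : QV a x (b + 2 * a * s) (c + b * s + a * s ^ 2)) : QV a x b c := by
  intro hadm
  obtain ⟨S, w, z, m1, m2, m3, m4, m5, m6, m7, m8, m9⟩ := h (adm_shift _ hadm)
  simp only [partialC_shift] at m2
  rw [Vc_shift, Vc_shift] at m8
  rw [eps_shift, gcd_shift, Vc_shift] at m9
  exact ⟨S, w, z, m1, m2, m3, m4, m5, m6, m7, m8, m9⟩

/-- from the count of `QLL` to the lower bound `1 / 5` -/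
lemma QLL_low (a : ℤ) (ha : 0 < a) : ∃ N0 : ℕ, ∀ N : ℕ, N0 ≤ N → ∀ b c : ℤ, |b| ≤ N → |c| ≤ N → ∀ M η' : ℝ, 0 < M → η' ≤ 1 / 50 →
    1 / 2 * (M * ∑ m ∈ Ioc 0 N, 1 / Real.log ((a : ℝ) * m ^ 2 + b * m + c)) - η' * (M * N / Real.log N) ≤ (#(PP a b c N) : ℝ) →
    1 / 5 * (M * N / Real.log N) ≤ (#(PP a b c N) : ℝ) := by
  obtain ⟨N2, h4⟩ := li_low a ha
  obtain ⟨N3, h5⟩ := ev_L' 1
  refine ⟨max (max N2 N3) 1, fun N hN b c hb hc M η' hM0 hη'2 hcount => ?_⟩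
  have g4 : N2 ≤ N := le_trans (le_trans (le_max_left _ _) (le_max_left _ _)) hN
  have g5 : N3 ≤ N := le_trans (le_trans (le_max_right _ _) (le_max_left _ _)) hN
  have g6 : 1 ≤ N := le_trans (le_max_right _ _) hN
  have hli := h4 N g4 b c hb hc
  have hL1 := h5 N g5
  have hN0 : (0 : ℝ) < N := by exact_mod_cast (by omega : 0 < N)
  refine le_trans ?_ hcount
  obtain ⟨Sg, hSg⟩ : ∃ Sg : ℝ, Sg = ∑ m ∈ Ioc 0 N, 1 / Real.log ((a : ℝ) * m ^ 2 + b * m + c) := ⟨_, rfl⟩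
  rw [← hSg] at hli ⊢
  obtain ⟨R, hR⟩ : ∃ R : ℝ, R = N / Real.log N := ⟨_, rfl⟩
  have hR0 : 0 < R := by rw [hR]; exact div_pos hN0 (by linarith)
  rw [← hR] at hli
  have e1 : M * N / Real.log N = M * R := by rw [hR]; ring
  rw [e1]
  have e2 : M * (9 / 20 * R) ≤ M * Sg := mul_le_mul_of_nonneg_left hli hM0.le
  have e3 : 0 < M * R := by positivity
  have e4 : η' * (M * R) ≤ 1 / 50 * (M * R) := mul_le_mul_of_nonneg_right hη'2 e3.le
  nlinarith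

/-- the conclusion for one polynomial -/
def Concl (a : ℤ) (r : ℕ) (κ δ θ γ : ℝ) (N : ℕ) (b c : ℤ) : Prop :=
  ∃ S : ℝ, 0 < S ∧ Tendsto (fun z => partialC a b c z) atTop (𝓝 S) ∧ θ ≤ eps a b * S * gcdProd a b ∧
    1 / 5 * (eps a b * S * gcdProd a b * N / Real.log N) ≤ (#(PP a b c N) : ℝ) ∧
    Shp r κ δ γ N (PP a b c N) (eps a b * S * gcdProd a b * N / Real.log N)

/-- the step from `QLL` and `QV` to the conclusion -/
lemma concl_of (a : ℤ) (ha : 0 < a) (r : ℕ) (hr : 1 ≤ r) (κ δ θ : ℝ) (hκ : 0 < κ) (hδ : 0 < δ) (hδ1 : δ ≤ 1) (hθ : 0 < θ) :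
    ∃ γ : ℝ, 0 < γ ∧ ∃ N0 : ℕ, ∀ N : ℕ, N0 ≤ N → ∀ b c : ℤ, |b| ≤ N → |c| ≤ N → Admissible a b c → ∀ η' : ℝ, η' ≤ 1 / 50 → QLL a θ η' N b c →
      ∀ x : ℕ, N ≤ x → x ≤ 3 * a.toNat * N → QV a x b c → Concl a r κ δ θ γ N b c := by
  obtain ⟨γ, hγ, N1, h1⟩ := one_poly a ha r hr κ δ θ hκ hδ hδ1 hθ
  obtain ⟨N2, h2⟩ := QLL_low a ha
  refine ⟨γ, hγ, max N1 N2, fun N hN b c hb hc hadm η' hη' hQ x hx1 hx2 hQV => ?_⟩
  have g1 : N1 ≤ N := (le_max_left _ _).trans hN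
  have g2 : N2 ≤ N := (le_max_right _ _).trans hN
  obtain ⟨S, s1, s2, s3, s4⟩ := hQ hadm
  have hcount := s4 0 N (Nat.zero_le _) le_rfl
  have hP := h2 N g2 b c hb hc (eps a b * S * gcdProd a b) η' (by linarith) hη' hcount
  exact ⟨S, s1, s2, s3, hP, h1 N g1 b c hb hc hadm x hx1 hx2 hQV S s2 s3 hP⟩

/-- smaller constants -/
lemma concl_mono {a : ℤ} {r : ℕ} {κ δ θ γ θ' γ' : ℝ} {N : ℕ} {b c : ℤ} (hN : 1 ≤ Real.log N) (hθ : θ' ≤ θ) (hγ : γ' ≤ γ) (hθ0 : 0 < θ')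
    (h : Concl a r κ δ θ γ N b c) : Concl a r κ δ θ' γ' N b c := by
  obtain ⟨S, s1, s2, s3, s4, s5⟩ := h
  refine ⟨S, s1, s2, hθ.trans s3, s4, fun T hT hTc bb h1 h2 h3 => ?_⟩
  obtain ⟨D', d1, d2⟩ := s5 T hT hTc bb h1 h2 h3
  have hM0 : 0 < eps a b * S * gcdProd a b := by linarith
  refine ⟨D', le_trans (mul_le_mul_of_nonneg_right hγ (by positivity)) d1, fun d hd => ?_⟩
  obtain ⟨e1, e2, e3⟩ := d2 d hd
  refine ⟨e1, e2, le_trans ?_ e3⟩
  have hl : 0 ≤ Real.log (Real.log N) := Real.log_nonneg hN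
  have hL : 0 < Real.log N := by linarith
  have h4 : 0 ≤ eps a b * S * gcdProd a b * N / Real.log N := by
    apply div_nonneg _ hL.le
    exact mul_nonneg hM0.le (Nat.cast_nonneg _)
  apply mul_le_mul_of_nonneg_right _ h4
  exact mul_le_mul_of_nonneg_right hγ (by positivity)

/-- **Almost all constant terms.** -/
theorem one_par (a : ℤ) (ha : 0 < a) (b : ℤ) (r : ℕ) (hr : 1 ≤ r) (ε η κ δ : ℝ) (hε : 0 < ε) (hη : 0 < η) (hκ : 0 < κ) (hδ : 0 < δ) (hδ1 : δ ≤ 1) :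
    ∃ θ γ : ℝ, 0 < θ ∧ 0 < γ ∧ ∃ N0 : ℕ, ∀ N : ℕ, N0 ≤ N → ∀ K : ℕ, (N : ℝ) ^ (2 / 3 + ε) ≤ K → K ≤ N →
      ∃ Ex ⊆ Icc (-(K : ℤ)) K, (#Ex : ℝ) ≤ η * K ∧
        ∀ c ∈ Icc (-(K : ℤ)) K, c ∉ Ex → Admissible a b c → Concl a r κ δ θ γ N b c := by
  classical
  by_cases hε3 : 2 / 3 + ε ≤ 1
  swap
  · refine ⟨1, 1, one_pos, one_pos, 2, fun N hN K hK1 hK2 => ?_⟩
    exfalso
    push Not at hε3
    have hN1 : (1 : ℝ) < N := by exact_mod_cast (by omega : 1 < N)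
    have h1 : (N : ℝ) ^ (1 : ℝ) < (N : ℝ) ^ (2 / 3 + ε) := Real.rpow_lt_rpow_of_exponent_lt hN1 hε3
    rw [Real.rpow_one] at h1
    have h2 : (K : ℝ) ≤ N := by exact_mod_cast hK2
    linarith
  obtain ⟨η', hη'⟩ : ∃ η' : ℝ, η' = min (η / 8) (1 / 50) := ⟨_, rfl⟩
  have hη'0 : 0 < η' := by rw [hη']; exact lt_min (by positivity) (by norm_num)
  have hη'1 : η' ≤ η / 8 := by rw [hη']; exact min_le_left _ _
  have hη'2 : η' ≤ 1 / 50 := by rw [hη']; exact min_le_right _ _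
  have haR : (1 : ℝ) ≤ a := by exact_mod_cast ha
  -- positive constant terms
  obtain ⟨θ1, hθ1, x1, h1⟩ := unif_ofL (conL a ha 1 le_rfl ε η' hε hη'0)
  obtain ⟨x2, h2⟩ := unif_QV a ha 1 le_rfl (2 / 3) (by norm_num) η' hη'0
  -- negative constant terms
  obtain ⟨θ2, hθ2, x3, h3⟩ := neg_tL a ha b ε η' hε hε3 hη'0
  obtain ⟨x4, h4⟩ := neg_transfer a ha b (2 / 3) η' (by norm_num) (by norm_num) _
    (unif_QV a ha (5 * a) (by linarith) (2 / 3) (by norm_num) (η' / (3 * a)) (by positivity))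
  obtain ⟨γ1, hγ1, n1, h5⟩ := concl_of a ha r hr κ δ θ1 hκ hδ hδ1 hθ1
  obtain ⟨γ2, hγ2, n2, h6⟩ := concl_of a ha r hr κ δ θ2 hκ hδ hδ1 hθ2
  obtain ⟨n3, h7⟩ := ev_L' 1
  obtain ⟨n4, h8⟩ := ev_pow 0 (2 / 3) (η / 2) (by norm_num) (by positivity)
  refine ⟨min θ1 θ2, min γ1 γ2, lt_min hθ1 hθ2, lt_min hγ1 hγ2,
    max (max (max x1 x2) (max x3 x4)) (max (max n1 n2) (max (max n3 n4) (max (b.natAbs ^ 4) (b.natAbs + 1)))), fun N hN K hK1 hK2 => ?_⟩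
  have g1 : x1 ≤ N := le_trans (le_trans (le_trans (le_max_left _ _) (le_max_left _ _)) (le_max_left _ _)) hN
  have g2 : x2 ≤ N := le_trans (le_trans (le_trans (le_max_right _ _) (le_max_left _ _)) (le_max_left _ _)) hN
  have g3 : x3 ≤ N := le_trans (le_trans (le_trans (le_max_left _ _) (le_max_right _ _)) (le_max_left _ _)) hN
  have g4 : x4 ≤ N := le_trans (le_trans (le_trans (le_max_right _ _) (le_max_right _ _)) (le_max_left _ _)) hN
  have g5 : n1 ≤ N := le_trans (le_trans (le_trans (le_max_left _ _) (le_max_left _ _)) (le_max_right _ _)) hN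
  have g6 : n2 ≤ N := le_trans (le_trans (le_trans (le_max_right _ _) (le_max_left _ _)) (le_max_right _ _)) hN
  have g7 : n3 ≤ N := le_trans (le_trans (le_trans (le_trans (le_max_left _ _) (le_max_left _ _)) (le_max_right _ _)) (le_max_right _ _)) hN
  have g8 : n4 ≤ N := le_trans (le_trans (le_trans (le_trans (le_max_right _ _) (le_max_left _ _)) (le_max_right _ _)) (le_max_right _ _)) hN
  have g9 : b.natAbs ^ 4 ≤ N := le_trans (le_trans (le_trans (le_trans (le_max_left _ _) (le_max_right _ _)) (le_max_right _ _)) (le_max_right _ _)) hN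
  have g10 : b.natAbs + 1 ≤ N := le_trans (le_trans (le_trans (le_trans (le_max_right _ _) (le_max_right _ _)) (le_max_right _ _)) (le_max_right _ _)) hN
  have hL1 := h7 N g7
  have q8 := h8 N g8
  rw [pow_zero] at q8
  have hNr : (1 : ℝ) ≤ N := by exact_mod_cast (by omega : 1 ≤ N)
  have hN0 : (0 : ℝ) < N := by linarith
  have hK23 : (N : ℝ) ^ (2 / 3 : ℝ) ≤ K := (Real.rpow_le_rpow_of_exponent_le hNr (by linarith)).trans hK1
  have hbK : (b : ℝ) ^ 2 ≤ 1 * K := by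
    have e1 : (b : ℝ) ^ 2 ≤ (N : ℝ) ^ (1 / 2 : ℝ) := by
      rw [← Real.sqrt_eq_rpow]
      apply Real.le_sqrt_of_sq_le
      have e2 : ((b.natAbs ^ 4 : ℕ) : ℝ) ≤ N := by exact_mod_cast g9
      have e3 : ((b.natAbs ^ 4 : ℕ) : ℝ) = ((b : ℝ) ^ 2) ^ 2 := by
        have e4 : ((b.natAbs : ℕ) : ℝ) = |(b : ℝ)| := by rw [Nat.cast_natAbs, Int.cast_abs]
        push_cast
        rw [e4]
        rw [show |(b : ℝ)| ^ 4 = (|(b : ℝ)| ^ 2) ^ 2 by ring, sq_abs]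
      rw [← e3]
      exact e2
    rw [one_mul]
    exact (e1.trans (Real.rpow_le_rpow_of_exponent_le hNr (by norm_num))).trans hK23
  obtain ⟨E1, a1, a2, a3⟩ := h1 N g1 b K hbK hK1 hK2
  obtain ⟨E2, b1, b2, b3⟩ := h2 N g2 b K hbK hK23 hK2
  obtain ⟨E3, c1, c2, c3⟩ := h3 N g3 K hK1 hK2
  obtain ⟨E4, d1, d2, d3⟩ := h4 N g4 K hK23 hK2
  have hat : 1 ≤ a.toNat := by omega
  have hbN : |b| ≤ N := by rw [abs_le]; omega
  refine ⟨((E1 ∪ E2).image (fun c : ℕ => (c : ℤ)) ∪ (E3 ∪ E4).image (fun c : ℕ => -(c : ℤ))) ∪ {0}, ?_, ?_, ?_⟩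
  · intro c hc
    rw [mem_union, mem_union, mem_image, mem_image, mem_singleton] at hc
    rw [mem_Icc]
    rcases hc with (⟨m, hm, rfl⟩ | ⟨m, hm, rfl⟩) | rfl
    · rcases mem_union.1 hm with h | h
      · have := mem_Icc.1 (a1 h); omega
      · have := mem_Icc.1 (b1 h); omega
    · rcases mem_union.1 hm with h | h
      · have := mem_Icc.1 (c1 h); omega
      · have := mem_Icc.1 (d1 h); omega
    · omega
  · have e1 : #(((E1 ∪ E2).image (fun c : ℕ => (c : ℤ)) ∪ (E3 ∪ E4).image (fun c : ℕ => -(c : ℤ))) ∪ {0}) ≤ (#E1 + #E2) + (#E3 + #E4) + 1 := by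
      refine (card_union_le _ _).trans ?_
      rw [card_singleton]
      apply Nat.add_le_add_right
      refine (card_union_le _ _).trans ?_
      exact Nat.add_le_add (card_image_le.trans (card_union_le _ _)) (card_image_le.trans (card_union_le _ _))
    have e2 : (#(((E1 ∪ E2).image (fun c : ℕ => (c : ℤ)) ∪ (E3 ∪ E4).image (fun c : ℕ => -(c : ℤ))) ∪ {0}) : ℝ) ≤ (#E1 + #E2) + (#E3 + #E4) + 1 := by
      exact_mod_cast e1
    have e3 : 1 ≤ η / 2 * (K : ℝ) := by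
      calc (1 : ℝ) ≤ η / 2 * (N : ℝ) ^ (2 / 3 : ℝ) := q8
        _ ≤ η / 2 * K := mul_le_mul_of_nonneg_left hK23 (by positivity)
    have e4 : η' * (K : ℝ) ≤ η / 8 * K := mul_le_mul_of_nonneg_right hη'1 (Nat.cast_nonneg _)
    linarith
  · intro c hc hcE hadm
    rw [mem_union, mem_union, mem_image, mem_image, mem_singleton, not_or, not_or] at hcE
    obtain ⟨⟨hc1, hc2⟩, hc3⟩ := hcE
    rw [mem_Icc] at hc
    rcases lt_trichotomy c 0 with h | h | h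
    · -- negative
      obtain ⟨m, hm⟩ : ∃ m : ℕ, (m : ℤ) = -c := ⟨(-c).toNat, by omega⟩
      have hcm : c = -(m : ℤ) := by omega
      have hmK : m ∈ Icc 1 K := by rw [mem_Icc]; omega
      have hm3 : m ∉ E3 := fun hE => hc2 ⟨m, mem_union_left _ hE, hcm.symm⟩
      have hm4 : m ∉ E4 := fun hE => hc2 ⟨m, mem_union_right _ hE, hcm.symm⟩
      obtain ⟨kk, _, _, hQ⟩ := d3 m hmK hm4
      have hQ3 := c3 m hmK hm3
      rw [← hcm] at hQ hQ3
      have hQV := QV_shift a b c kk _ hQ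
      refine concl_mono hL1 (min_le_right _ _) (min_le_right _ _) (lt_min hθ1 hθ2)
        (h6 N g6 b c hbN (by rw [abs_le]; omega) hadm η' hη'2 hQ3 (3 * a.toNat * N) (by nlinarith) le_rfl hQV)
    · exact absurd h hc3
    · obtain ⟨m, hm⟩ : ∃ m : ℕ, (m : ℤ) = c := ⟨c.toNat, by omega⟩
      have hmK : m ∈ Icc 1 K := by rw [mem_Icc]; omega
      have hm1 : m ∉ E1 := fun hE => hc1 ⟨m, mem_union_left _ hE, hm⟩
      have hm2 : m ∉ E2 := fun hE => hc1 ⟨m, mem_union_right _ hE, hm⟩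
      have hQ1 := a3 m hmK hm1
      have hQ2 := b3 m hmK hm2
      rw [hm] at hQ1 hQ2
      refine concl_mono hL1 (min_le_left _ _) (min_le_left _ _) (lt_min hθ1 hθ2)
        (h5 N g5 b c hbN (by rw [abs_le]; omega) hadm η' hη'2 hQ1 N le_rfl (by nlinarith) hQ2)

end Pool.Agent.H544.EQ
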